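import Pool.Agent.Helper61.BT.Goals
import Pool.Agent.Helper58.VF.APP

/-!
# Project BT, packet APG: infinitely many elements of `S` in a finitely generated subgroup
-/

set_option autoImplicit false

namespace Pool.Agent.Helper49.BT

open Pool.Agent.Helper27.VF Pool.Agent.Helper38.VF Pool.Agent.Helper61.BT Pool.Agent.Helper58.VF
open Filter

universe u

/-- joined inside `W` -/
def Rch {Γ : Type u} [Group Γ] (T : Set Γ) (W : Set Γ) (a b : Γ) : Prop :=
  ∃ (h1 : a ∈ W) (h2 : b ∈ W), ((cay T).induce W).Reachable ⟨a, h1⟩ ⟨b, h2⟩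

theorem Rch.trans {Γ : Type u} [Group Γ] {T W : Set Γ} {a b c : Γ} (h : Rch T W a b)
    (h' : Rch T W b c) : Rch T W a c := by
  obtain ⟨h1, h2, h3⟩ := h
  obtain ⟨h1', h2', h3'⟩ := h'
  exact ⟨h1, h2', h3.trans h3'⟩

theorem Rch.symm {Γ : Type u} [Group Γ] {T W : Set Γ} {a b : Γ} (h : Rch T W a b) :
    Rch T W b a := by
  obtain ⟨h1, h2, h3⟩ := h
  exact ⟨h2, h1, h3.symm⟩

theorem Rch.refl {Γ : Type u} [Group Γ] {T W : Set Γ} {a : Γ} (h : a ∈ W) : Rch T W a a :=
  ⟨h, h, SimpleGraph.Reachable.refl _⟩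

/-- a finite set of vertices joining `1` to `g` -/
theorem exists_path {Γ : Type u} [Group Γ] (T : Set Γ) : ∀ g ∈ Subgroup.closure T,
    ∃ F : Set Γ, F.Finite ∧ (1 : Γ) ∈ F ∧ g ∈ F ∧ ∀ (W : Set Γ) (a : Γ), (∀ f ∈ F, a * f ∈ W) →
      ∀ f ∈ F, Rch T W a (a * f) := by
  intro g hg
  induction hg using Subgroup.closure_induction with
  | mem s hs =>
    refine ⟨{1, s}, by simp, by simp, by simp, ?_⟩
    intro W a hW f hf
    have h1 : a ∈ W := by have := hW 1 (by simp); rwa [mul_one] at this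
    have h2 : a * s ∈ W := hW s (by simp)
    rcases hf with rfl | hf
    · rw [mul_one]; exact Rch.refl h1
    · have hf' : f = s := hf
      subst hf'
      by_cases h : a = a * f
      · rw [← h]; exact Rch.refl h1
      · refine ⟨h1, h2, SimpleGraph.Adj.reachable ?_⟩
        change (cay T).Adj a (a * f)
        refine cay_adj.2 ⟨h, Or.inl ?_⟩
        rw [inv_mul_cancel_left]; exact hs
  | one =>
    refine ⟨{1}, by simp, by simp, by simp, ?_⟩
    intro W a hW f hf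
    have hf' : f = 1 := hf
    subst hf'
    have h1 : a * 1 ∈ W := hW 1 (by simp)
    rw [mul_one] at h1 ⊢
    exact Rch.refl h1
  | mul x y _ _ hx hy =>
    obtain ⟨F, hF1, hF2, hF3, hF4⟩ := hx
    obtain ⟨F', hF1', hF2', hF3', hF4'⟩ := hy
    refine ⟨F ∪ (fun f => x * f) '' F', hF1.union (hF1'.image _), Or.inl hF2,
      Or.inr ⟨y, hF3', rfl⟩, ?_⟩
    intro W a hW f hf
    have h1 := hF4 W a (fun f hf => hW f (Or.inl hf))
    rcases hf with hf | ⟨f', hf', rfl⟩
    · exact h1 f hf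
    · have h2 := hF4' W (a * x) (fun f hf => by
        rw [mul_assoc]; exact hW _ (Or.inr ⟨f, hf, rfl⟩)) f' hf'
      have h3 := (h1 x hF3).trans h2
      rwa [mul_assoc] at h3
  | inv x _ hx =>
    obtain ⟨F, hF1, hF2, hF3, hF4⟩ := hx
    refine ⟨(fun f => x⁻¹ * f) '' F, hF1.image _, ⟨x, hF3, by simp⟩, ⟨1, hF2, by simp⟩, ?_⟩
    intro W a hW f hf
    obtain ⟨f', hf', rfl⟩ := hf
    have h1 := hF4 W (a * x⁻¹) (fun f hf => by
      rw [mul_assoc]; exact hW _ ⟨f, hf, rfl⟩)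
    have h2 := h1 x hF3
    rw [inv_mul_cancel_right] at h2
    have h3 := h2.symm.trans (h1 f' hf')
    rwa [mul_assoc] at h3

/-- The setting. -/
theorem setting2 {Γ : Type u} [Group Γ] (S : Set Γ) (h1 : (1 : Γ) ∉ S) (L : Subgroup Γ)
    (hL : L.FG) (hLS : L ≤ Subgroup.closure S) (hinf : (S ∩ L).Infinite) :
    ∃ (W : Set Γ) (_ : MulAction L W) (G₀ : SimpleGraph W) (w : W) (p : Ultrafilter W),
      (w : Γ) = 1 ∧ (∀ (a : L) (x : W), ((a • x : W) : Γ) = a * x) ∧
      Stg L ((cay S).induce W) G₀ w p := by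
  classical
  obtain ⟨X, hX⟩ := hL
  -- a finite part of `S` whose group contains `L`
  choose! E hE1 hE2 using fun g (hg : g ∈ Subgroup.closure S) => exists_finset S g hg
  let T : Set Γ := ⋃ x ∈ X, (E x : Set Γ)
  have hXL : ∀ x ∈ X, x ∈ L := fun x hx => by rw [← hX]; exact Subgroup.subset_closure hx
  have hTf : T.Finite := Set.Finite.biUnion X.finite_toSet fun x _ => (E x).finite_toSet
  have hTS : T ⊆ S := Set.iUnion₂_subset fun x hx => hE1 x (hLS (hXL x hx))
  have hXT : ∀ x ∈ X, x ∈ Subgroup.closure T := fun x hx =>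
    Subgroup.closure_mono (Set.subset_biUnion_of_mem (u := fun x => (E x : Set Γ)) hx)
      (hE2 x (hLS (hXL x hx)))
  choose! P hP1 hP2 hP3 hP4 using fun g (hg : g ∈ Subgroup.closure T) => exists_path T g hg
  let F : Set Γ := insert 1 (⋃ x ∈ X, P x)
  have hFf : F.Finite :=
    (Set.Finite.biUnion X.finite_toSet fun x hx => hP1 x (hXT x hx)).insert 1
  let W : Set Γ := {y | ∃ a ∈ L, ∃ f ∈ F, a * f = y}
  have hLW : ∀ a ∈ L, a ∈ W := fun a ha => ⟨a, ha, 1, Set.mem_insert _ _, mul_one a⟩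
  have hmulW : ∀ a ∈ L, ∀ y ∈ W, a * y ∈ W := by
    rintro a ha _ ⟨b, hb, f, hf, rfl⟩
    exact ⟨a * b, L.mul_mem ha hb, f, hf, mul_assoc _ _ _⟩
  -- connectedness
  have hr1 : ∀ a ∈ L, ∀ f ∈ F, Rch T W a (a * f) := by
    intro a ha f hf
    rcases hf with rfl | hf
    · rw [mul_one]; exact Rch.refl (hLW a ha)
    · simp only [Set.mem_iUnion] at hf
      obtain ⟨x, hx, hf⟩ := hf
      refine hP4 x (hXT x hx) W a (fun f' hf' => ⟨a, ha, f', ?_, rfl⟩) f hf
      exact Set.mem_insert_of_mem _ (Set.mem_biUnion hx hf')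
  have hr2 : ∀ g ∈ L, ∀ a ∈ L, Rch T W a (a * g) := by
    intro g hg
    rw [← hX] at hg
    induction hg using Subgroup.closure_induction with
    | mem x hx =>
      intro a ha
      exact hr1 a ha x (Set.mem_insert_of_mem _ (Set.mem_biUnion hx (hP3 x (hXT x hx))))
    | one => intro a ha; rw [mul_one]; exact Rch.refl (hLW a ha)
    | mul x y hx _ hx' hy' =>
      intro a ha
      rw [← mul_assoc]
      have hxL : x ∈ L := by rw [← hX]; exact hx
      exact (hx' a ha).trans (hy' (a * x) (L.mul_mem ha hxL))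
    | inv x hx hx' =>
      intro a ha
      have hxL : x ∈ L := by rw [← hX]; exact hx
      have := hx' (a * x⁻¹) (L.mul_mem ha (L.inv_mem hxL))
      rw [inv_mul_cancel_right] at this
      exact this.symm
  have hr3 : ∀ y ∈ W, Rch T W 1 y := by
    rintro _ ⟨a, ha, f, hf, rfl⟩
    have := hr2 a ha 1 L.one_mem
    rw [one_mul] at this
    exact this.trans (hr1 a ha f hf)
  -- the action
  let act : MulAction L W :=
    { smul := fun a x => ⟨(a : Γ) * (x : Γ), hmulW a a.2 x x.2⟩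
      one_smul := fun x => Subtype.ext (one_mul _)
      mul_smul := fun a b x => Subtype.ext (mul_assoc _ _ _) }
  have hact : ∀ (a : L) (x : W), ((a • x : W) : Γ) = a * x := fun _ _ => rfl
  -- the ultrafilter
  let S' : Set W := {x | (x : Γ) ∈ S ∧ (x : Γ) ∈ L}
  have hS' : S'.Infinite := by
    intro hf
    apply hinf
    refine (hf.image Subtype.val).subset ?_
    rintro s ⟨hs, hsL⟩
    exact ⟨⟨s, hLW s hsL⟩, ⟨hs, hsL⟩, rfl⟩
  have : (cofinite ⊓ 𝓟 S' : Filter W).NeBot := hS'.cofinite_inf_principal_neBot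
  obtain ⟨p, hp⟩ : ∃ p : Ultrafilter W, (p : Filter W) ≤ cofinite ⊓ 𝓟 S' :=
    ⟨Ultrafilter.of _, Ultrafilter.of_le _⟩
  have hpc : (p : Filter W) ≤ cofinite := hp.trans inf_le_left
  have hpS : S' ∈ p := (hp.trans inf_le_right) (mem_principal_self S')
  refine ⟨W, act, (cay T).induce W, ⟨1, hLW 1 L.one_mem⟩, p, rfl, hact, ?_⟩
  refine { free := ?_, fin := ?_, le := ?_, inv := ?_, inv₀ := ?_, conn := ?_,
           lf := ?_, nonp := ?_, nb := ?_ }
  · intro a x hax
    have := congrArg Subtype.val hax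
    rw [hact] at this
    exact Subtype.ext (mul_eq_right.1 this)
  · refine ⟨{x : W | (x : Γ) ∈ F}, hFf.preimage Subtype.val_injective.injOn, ?_⟩
    rintro ⟨_, a, ha, f, hf, rfl⟩
    exact ⟨⟨a, ha⟩, ⟨f, ⟨1, L.one_mem, f, hf, one_mul f⟩⟩, hf, Subtype.ext rfl⟩
  · intro x y hxy
    exact cay_le hTS hxy
  · intro a x y hxy
    exact cay_mul (a : Γ) hxy
  · intro a x y hxy
    exact cay_mul (a : Γ) hxy
  · have : Nonempty W := ⟨⟨1, hLW 1 L.one_mem⟩⟩
    refine SimpleGraph.Connected.mk ?_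
    intro x y
    obtain ⟨_, _, h3⟩ := hr3 x x.2
    obtain ⟨_, _, h4⟩ := hr3 y y.2
    exact h3.symm.trans h4
  · intro x
    refine ((cay_lf hTf (x : Γ)).preimage Subtype.val_injective.injOn).subset ?_
    intro y hy
    exact hy
  · intro F hF hFp
    have h2 : Fᶜ ∈ p := hpc hF.compl_mem_cofinite
    exact (Ultrafilter.compl_mem_iff_notMem.1 h2) hFp
  · refine Filter.mem_of_superset hpS ?_
    rintro s ⟨hs, _⟩
    refine cay_adj.2 ⟨?_, Or.inl ?_⟩
    · intro h
      have h' : (1 : Γ) = (s : Γ) := h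
      rw [← h'] at hs
      exact h1 hs
    · change (1 : Γ)⁻¹ * (s : Γ) ∈ S
      rw [inv_one, one_mul]; exact hs

/-- **APG** -/
def ApgStmt : Prop := ∀ (Γ : Type u) [Group Γ] (S : Set Γ), (1 : Γ) ∉ S → ∀ L : Subgroup Γ,
  L.FG → L ≤ Subgroup.closure S →
  (∃ N : ℕ, ∀ F : Subgroup L, (F : Set L).Finite → Nat.card F ≤ N) → (S ∩ L).Infinite →
  ∃ φ : ℕ → Set Γ,
    (∀ i, ((SimpleGraph.fromRel fun a b : Γ => a⁻¹ * b ∈ S).induce (φ i)).Connected) ∧
    (∀ i j, i ≠ j → Disjoint (φ i) (φ j)) ∧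
    ∀ i j, i ≠ j → ∃ a ∈ φ i, ∃ b ∈ φ j,
      (SimpleGraph.fromRel fun a b : Γ => a⁻¹ * b ∈ S).Adj a b

theorem apg (hI : InbStmt.{u}) (hR : RkbStmt.{u}) (hK : KndStmt.{u}) : ApgStmt.{u} := by
  intro Γ _ S h1 L hL hLS hN hinf
  obtain ⟨N, hN⟩ := hN
  obtain ⟨W, act, G₀, w, p, hw, hact, hst⟩ := setting2 S h1 L hL hLS hinf
  let _ := act
  obtain ⟨F, hF⟩ := (Group.fg_iff_subgroup_fg L).2 hL |>.out
  have hCon : Con L ((cay S).induce W) p := by
    by_contra hc
    have hD := hI (2 * N * F.card + 1) L W ((cay S).induce W) G₀ w p hst hc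
    let e : Fin F.card ≃ F := F.equivFin.symm
    have hcl : Subgroup.closure (Set.range fun i : Fin F.card => ((e i : F) : L)) = ⊤ := by
      have hr : (Set.range fun i : Fin F.card => ((e i : F) : L)) = (F : Set L) := by
        ext x
        constructor
        · rintro ⟨i, rfl⟩
          exact (e i).2
        · intro hx
          exact ⟨e.symm ⟨x, hx⟩, by simp⟩
      rw [hr, hF]
    have := hR L F.card (2 * N * F.card + 1) N (fun i => ((e i : F) : L)) hcl hN hD
    exact absurd this (Nat.not_succ_le_self _)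
  obtain ⟨Z, hZ1, hZ2⟩ := hCon
  have hinj : Function.Injective fun a : L => a • w := by
    intro a b hab
    have := congrArg Subtype.val hab
    simp only at this
    rw [hact, hact, hw, mul_one, mul_one] at this
    exact Subtype.ext this
  obtain ⟨φ, hφ1, hφ2, hφ3⟩ := hK W ((cay S).induce W) ((fun a : L => a • w) '' Z)
    (hZ1.image hinj.injOn) (by
      rintro _ ⟨a, ha, rfl⟩ _ ⟨b, hb, rfl⟩ c hc ⟨hx, hy⟩
      exact hZ2 a ha b hb c hc ⟨fact1 hst hc hx, fact1' hst hc hy⟩)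
  refine ⟨fun i => Subtype.val '' φ i, ?_, ?_, ?_⟩
  · intro i
    let f : ((cay S).induce W).induce (φ i) →g (cay S).induce (Subtype.val '' φ i) :=
      { toFun := fun x => ⟨((x : W) : Γ), ⟨(x : W), x.2, rfl⟩⟩
        map_rel' := fun {x y} h => h }
    have hf : Function.Surjective f := by
      rintro ⟨_, x, hx, rfl⟩
      exact ⟨⟨x, hx⟩, rfl⟩
    exact (hφ1 i).map f hf
  · intro i j hij
    exact (Set.disjoint_image_iff Subtype.val_injective).2 (hφ2 i j hij)
  · intro i j hij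
    obtain ⟨a, ha, b, hb, hab⟩ := hφ3 i j hij
    exact ⟨a, ⟨a, ha, rfl⟩, b, ⟨b, hb, rfl⟩, hab⟩

end Pool.Agent.Helper49.BT
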