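import Pool.Agent.Helper49.VF.TR2
import Pool.Agent.Helper61.BT.Goals

/-!
# Project BT: packet T2B
-/

set_option autoImplicit false

open Filter Topology

namespace Pool.Agent.Helper49.BT

open Pool.Agent.Helper49.VF

universe u

/-- **T2B** -/
theorem t2b : Pool.Agent.Helper61.BT.T2bStmt.{u} := by
  intro H₁ H₂ _ _ _ _ _ _ C P hPs hPP hPC k v hv η hη
  let c : ℝ := 1 / (‖C‖ ^ 2 + 1)
  have hc : 0 < c := by positivity
  have hcC : c * ‖C‖ ^ 2 ≤ 1 := by
    change 1 / (‖C‖ ^ 2 + 1) * ‖C‖ ^ 2 ≤ 1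
    rw [one_div, inv_mul_le_iff₀ (by positivity)]
    linarith
  have hcC' : c * ‖C.adjoint‖ ^ 2 ≤ 1 := by
    rwa [LinearIsometryEquiv.norm_map]
  let E : H₁ →L[ℝ] H₁ := EE C c
  let D : H₂ →L[ℝ] H₂ := EE C.adjoint c
  have hE : ∀ x, E x = x - c • C.adjoint (C x) := fun x => EE_apply C c x
  have hD : ∀ x, D x = x - c • C (C.adjoint x) := by
    intro x
    have := EE_apply C.adjoint c x
    rwa [ContinuousLinearMap.adjoint_adjoint] at this
  have hDC : ∀ n x, (D ^ n) (C x) = C ((E ^ n) x) := by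
    intro n
    induction n with
    | zero => intro x; simp
    | succ n ih =>
      intro x
      rw [pow_succ, pow_succ, ContinuousLinearMap.mul_apply, ContinuousLinearMap.mul_apply, ← ih]
      congr 1
      rw [hD, hE, map_sub, map_smul]
  have hPo : ∀ x y, inner ℝ (C y) (x - P x) = 0 := by
    intro x y
    rw [← hPC y, hPs, map_sub, hPP, sub_self, inner_zero_right]
  -- powers of `D` tend to zero on `R`
  have hlim : ∀ x ∈ closure (Set.range C), Tendsto (fun n : ℕ => ‖(D ^ n) x‖) atTop (𝓝 0) := by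
    intro x hx
    rw [Metric.tendsto_atTop]
    intro ε hε
    obtain ⟨_, ⟨y, rfl⟩, hy⟩ := Metric.mem_closure_iff.1 hx (ε / 2) (by positivity)
    have h1 := EE_tendsto C hc hcC y
    rw [Metric.tendsto_atTop] at h1
    obtain ⟨N, hN⟩ := h1 ((ε / 2) ^ 2) (by positivity)
    refine ⟨N, fun n hn => ?_⟩
    have h2 := hN n hn
    rw [dist_zero_right, Real.norm_eq_abs, abs_of_nonneg (by positivity)] at h2
    have h3 : ‖C ((E ^ n) y)‖ < ε / 2 := lt_of_pow_lt_pow_left₀ 2 (by positivity) h2
    rw [dist_zero_right, norm_norm]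
    have h4 : (D ^ n) x = (D ^ n) (x - C y) + C ((E ^ n) y) := by
      rw [← hDC, ← map_add]; congr 1; abel
    rw [h4]
    have h5 : ‖(D ^ n) (x - C y)‖ ≤ ‖x - C y‖ := EE_pow_le C.adjoint hc.le hcC' n _
    have h6 : ‖x - C y‖ < ε / 2 := by
      have : dist x (C y) < ε / 2 := hy
      rwa [dist_eq_norm] at this
    calc _ ≤ ‖(D ^ n) (x - C y)‖ + ‖C ((E ^ n) y)‖ := norm_add_le _ _
      _ < ε := by linarith
  -- choice of `N`
  obtain ⟨N, hN⟩ : ∃ N : ℕ, ∀ j, ‖(D ^ (2 * N)) (P (v j))‖ * ‖P (v j)‖ ≤ η := by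
    have h1 : ∀ j, ∀ᶠ n : ℕ in atTop, ‖(D ^ n) (P (v j))‖ * ‖P (v j)‖ ≤ η := by
      intro j
      have h2 := (hlim (P (v j)) (hv j)).mul_const ‖P (v j)‖
      rw [zero_mul] at h2
      exact (h2.eventually_lt_const hη).mono fun n hn => hn.le
    have h3 : ∀ᶠ n : ℕ in atTop, ∀ j, ‖(D ^ n) (P (v j))‖ * ‖P (v j)‖ ≤ η := eventually_all.2 h1
    obtain ⟨M, hM⟩ := eventually_atTop.1 h3
    exact ⟨M, fun j => hM (2 * M) (by omega) j⟩
  let S : H₂ →L[ℝ] H₂ := c • ∑ i ∈ Finset.range (2 * N), D ^ i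
  have hS : ∀ x, S x = c • ∑ i ∈ Finset.range (2 * N), (D ^ i) x := by
    intro x
    change (c • ∑ i ∈ Finset.range (2 * N), D ^ i) x = _
    rw [ContinuousLinearMap.smul_apply, ContinuousLinearMap.sum_apply]
  refine ⟨S, ?_, ?_, ?_⟩
  · intro x
    have h1 : C.adjoint (S (C x)) = x - (E ^ (2 * N)) x := by
      rw [hS, map_smul, map_sum, Finset.smul_sum]
      have h2 : ∀ i ∈ Finset.range (2 * N), c • C.adjoint ((D ^ i) (C x)) =
          (E ^ i) x - (E ^ (i + 1)) x := by
        intro i _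
        rw [hDC, pow_succ', ContinuousLinearMap.mul_apply, hE]
        abel
      rw [Finset.sum_congr rfl h2, Finset.sum_range_sub']
      simp
    rw [h1, inner_sub_left, real_inner_self_eq_norm_sq]
    have h3 : inner ℝ ((E ^ (2 * N)) x) x = ‖(E ^ N) x‖ ^ 2 := by
      rw [two_mul, pow_add, ContinuousLinearMap.mul_apply]
      have := EE_pow_symm C c N ((E ^ N) x) x
      rw [this, real_inner_self_eq_norm_sq]
    rw [h3]
    have : 0 ≤ ‖(E ^ N) x‖ ^ 2 := by positivity
    linarith
  · intro j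
    have h0 : C.adjoint (v j) = C.adjoint (P (v j)) := by
      have : C.adjoint (v j - P (v j)) = 0 := by
        apply ext_inner_right ℝ
        intro x
        rw [ContinuousLinearMap.adjoint_inner_left, inner_zero_left, real_inner_comm]
        exact hPo _ _
      rw [map_sub, sub_eq_zero] at this
      exact this
    have h1 : S (C (C.adjoint (v j))) = P (v j) - (D ^ (2 * N)) (P (v j)) := by
      rw [h0, hS, Finset.smul_sum]
      have h2 : ∀ i ∈ Finset.range (2 * N), c • (D ^ i) (C (C.adjoint (P (v j)))) =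
          (D ^ i) (P (v j)) - (D ^ (i + 1)) (P (v j)) := by
        intro i _
        rw [pow_succ, ContinuousLinearMap.mul_apply, hD, map_sub, map_smul]
        abel
      rw [Finset.sum_congr rfl h2, Finset.sum_range_sub']
      simp
    have hr : ∃ y, S (C (C.adjoint (v j))) = C y := by
      refine ⟨c • ∑ i ∈ Finset.range (2 * N), (E ^ i) (C.adjoint (v j)), ?_⟩
      rw [hS, map_smul, map_sum]
      congr 1
      exact Finset.sum_congr rfl fun i _ => hDC i _
    obtain ⟨y, hy⟩ := hr
    have h5 : inner ℝ (S (C (C.adjoint (v j)))) (v j) =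
        inner ℝ (S (C (C.adjoint (v j)))) (P (v j)) := by
      have : v j = P (v j) + (v j - P (v j)) := by abel
      conv_lhs => rw [this]
      rw [inner_add_right, ← this, hy, hPo, add_zero]
    rw [h5, h1, inner_sub_left, real_inner_self_eq_norm_sq]
    have h3 : inner ℝ ((D ^ (2 * N)) (P (v j))) (P (v j)) ≤ η :=
      (real_inner_le_norm _ _).trans (hN j)
    linarith
  · intro U₁ U₂ hU
    have hadj : ∀ y, C.adjoint (U₂ y) = U₁ (C.adjoint y) := by
      intro y
      apply ext_inner_right ℝ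
      intro x
      obtain ⟨x', rfl⟩ := U₁.surjective x
      rw [ContinuousLinearMap.adjoint_inner_left, hU, LinearIsometryEquiv.inner_map_map,
        LinearIsometryEquiv.inner_map_map, ContinuousLinearMap.adjoint_inner_left]
    have hDU : ∀ y, D (U₂ y) = U₂ (D y) := by
      intro y
      rw [hD, hD, hadj, hU, map_sub, map_smul]
    have hDUn : ∀ (n : ℕ) y, (D ^ n) (U₂ y) = U₂ ((D ^ n) y) := by
      intro n
      induction n with
      | zero => intro y; simp
      | succ n ih =>
        intro y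
        rw [pow_succ, ContinuousLinearMap.mul_apply, ContinuousLinearMap.mul_apply, hDU, ih]
    refine ⟨?_, hadj⟩
    intro y
    rw [hS, hS, map_smul, map_sum]
    congr 1
    exact Finset.sum_congr rfl fun i _ => hDUn i y

end Pool.Agent.Helper49.BT
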