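import Pool.Agent.Helper24.VF.TRC
import Pool.Agent.Helper61.BT.Goals

/-!
# Project BT: packet TCH (adapted from `Pool.Agent.Helper24.VF.trc`)
-/

set_option autoImplicit false

namespace Pool.Agent.Helper49.BT

open Pool.Agent.Helper27.VF Pool.Agent.Helper38.VF Pool.Agent.Helper61.BT
open Pool.Agent.Helper24.VF (eqv_of eqv_comm)

universe u

theorem tch (h1 : Tr1Stmt.{u}) (h2 : T2bStmt.{u}) (h3 : RtrStmt.{u}) : TchStmt.{u} := by
  intro A _ n k C P hC hPs hPP hPC hPc
  classical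
  have key : ∀ η : ℝ, 0 < η → tr' P - k * η ≤ n := by
    intro η hη
    obtain ⟨S, hS1, hS2, hS3⟩ := h2 (L2 (Fin n × A)) (L2 (Fin k × A)) C P hPs hPP hPC k
      (fun j => (lp.single 2 (j, (1 : A)) (1 : ℝ) : L2 (Fin k × A))) (fun j => hPc _) η hη
    have hcomm : ∀ (h : A) (R₁ : L2 (Fin n × A) ≃ₗᵢ[ℝ] L2 (Fin n × A))
        (R₂ : L2 (Fin k × A) ≃ₗᵢ[ℝ] L2 (Fin k × A)), (∀ f z, R₁ f z = f (z.1, z.2 * h)) →
        (∀ f z, R₂ f z = f (z.1, z.2 * h)) →
        (∀ y, S (R₂ y) = R₂ (S y)) ∧ ∀ y, C.adjoint (R₂ y) = R₁ (C.adjoint y) :=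
      fun h R₁ R₂ hR₁ hR₂ => hS3 R₁ R₂ fun x => eqv_comm hC h R₁ R₂ hR₁ hR₂ x
    have hSe : Eqv S := by
      refine eqv_of S h3 fun h R₁ R₂ hR₁ hR₂ f => ?_
      obtain ⟨R₀, hR₀⟩ := h3 A n h
      have hRR : R₁ = R₂ := by
        ext1 f
        apply lp.ext
        funext z
        rw [hR₁, hR₂]
      rw [hRR]
      exact (hcomm h R₀ R₂ hR₀ hR₂).1 f
    have hPe : Eqv (C.adjoint.comp S) := by
      refine eqv_of _ h3 fun h R₁ R₂ hR₁ hR₂ f => ?_
      have := hcomm h R₂ R₁ hR₂ hR₁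
      simp only [ContinuousLinearMap.comp_apply]
      rw [this.1, this.2]
    have hCC : Eqv (C.comp C.adjoint) := by
      refine eqv_of _ h3 fun h R₁ R₂ hR₁ hR₂ f => ?_
      obtain ⟨R₀, hR₀⟩ := h3 A n h
      simp only [ContinuousLinearMap.comp_apply]
      rw [(hcomm h R₀ R₁ hR₀ hR₁).2, eqv_comm hC h R₀ R₂ hR₀ hR₂]
    have t1 : tr' ((C.adjoint.comp S).comp C) = tr' (C.comp (C.adjoint.comp S)) :=
      h1 A k n (C.adjoint.comp S) C hPe hC
    have t2 : tr' ((C.comp C.adjoint).comp S) = tr' (S.comp (C.comp C.adjoint)) :=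
      h1 A k k (C.comp C.adjoint) S hCC hSe
    have t3 : C.comp (C.adjoint.comp S) = (C.comp C.adjoint).comp S := by
      ext1 x
      rfl
    have b1 : tr' ((C.adjoint.comp S).comp C) ≤ n := by
      unfold tr'
      have hj : ∀ j : Fin n, (((C.adjoint.comp S).comp C)
          (lp.single 2 (j, (1 : A)) (1 : ℝ) : L2 (Fin n × A))) (j, 1) ≤ 1 := by
        intro j
        have h := hS1 (lp.single 2 (j, (1 : A)) (1 : ℝ) : L2 (Fin n × A))
        rw [lp.inner_single_right, lp.norm_single (by norm_num)] at h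
        simpa using h
      calc _ ≤ ∑ _j : Fin n, (1 : ℝ) := Finset.sum_le_sum fun j _ => hj j
        _ = n := by simp
    have b2 : tr' P - k * η ≤ tr' (S.comp (C.comp C.adjoint)) := by
      unfold tr'
      have hj : ∀ j : Fin k, (P (lp.single 2 (j, (1 : A)) (1 : ℝ) : L2 (Fin k × A))) (j, 1) - η ≤
          ((S.comp (C.comp C.adjoint))
          (lp.single 2 (j, (1 : A)) (1 : ℝ) : L2 (Fin k × A))) (j, 1) := by
        intro j
        have h := hS2 j
        have h5 : ‖P (lp.single 2 (j, (1 : A)) (1 : ℝ) : L2 (Fin k × A))‖ ^ 2 =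
            (P (lp.single 2 (j, (1 : A)) (1 : ℝ) : L2 (Fin k × A))) (j, 1) := by
          rw [← real_inner_self_eq_norm_sq, ← hPs, hPP, lp.inner_single_right]
          simp
        rw [h5, lp.inner_single_right] at h
        simpa using h
      calc _ = ∑ j : Fin k,
            ((P (lp.single 2 (j, (1 : A)) (1 : ℝ) : L2 (Fin k × A))) (j, 1) - η) := by
            rw [Finset.sum_sub_distrib, Finset.sum_const, Finset.card_univ, Fintype.card_fin,
              nsmul_eq_mul]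
        _ ≤ _ := Finset.sum_le_sum fun j _ => hj j
    rw [t3, t2] at t1
    linarith
  by_contra hcon
  rw [not_le] at hcon
  have hk0 : (0 : ℝ) < (k : ℝ) + 1 := by positivity
  have h := key ((tr' P - n) / (2 * ((k : ℝ) + 1))) (by
    have : 0 < tr' P - n := by linarith
    positivity)
  have h5 : (k : ℝ) * ((tr' P - n) / (2 * ((k : ℝ) + 1))) ≤ (tr' P - n) / 2 := by
    have e : (k : ℝ) * ((tr' P - n) / (2 * ((k : ℝ) + 1))) =
        (k / (k + 1)) * ((tr' P - n) / 2) := by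
      field_simp
    rw [e]
    have h6 : (k : ℝ) / (k + 1) ≤ 1 := by
      rw [div_le_one hk0]
      linarith
    have h7 : 0 ≤ (tr' P - n) / 2 := by linarith
    calc _ ≤ 1 * ((tr' P - n) / 2) := mul_le_mul_of_nonneg_right h6 h7
      _ = _ := one_mul _
  linarith

end Pool.Agent.Helper49.BT
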